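import Pool.Agent.SSF.Stmts

/-!
# Squad SSF, row HAM (MP_005a41_gt): partition in the scale, and two cutoffs
-/

set_option autoImplicit false

open Set Topology

namespace Pool.Agent.SSF.H49

open Pool.Agent.LSG Pool.Agent.LPR Pool.Agent.SSF

theorem cutoff (A B : ℝ) (hA : 0 < A) (hB : 0 < B) : ∃ f : C(ℝ, ℝ), (∀ r, 0 ≤ f r ∧ f r ≤ 1) ∧
    (∀ r, 2 * A ≤ r → r ≤ B → f r = 1) ∧ ∀ r, f r ≠ 0 → A < r ∧ r < 2 * B := by
  refine ⟨⟨fun r => max 0 (min 1 (min (r / A - 1) (2 - r / B))), ?_⟩, ?_, ?_, ?_⟩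
  · exact continuous_const.max (continuous_const.min
      (((continuous_id.div_const A).sub continuous_const).min
        (continuous_const.sub (continuous_id.div_const B))))
  · intro r
    exact ⟨le_max_left _ _, max_le zero_le_one (min_le_left _ _)⟩
  · intro r h1 h2
    have h3 : 1 ≤ r / A - 1 := by
      have : 2 ≤ r / A := by rw [le_div_iff₀ hA]; exact h1
      linarith
    have h4 : 1 ≤ 2 - r / B := by
      have : r / B ≤ 1 := by rw [div_le_one hB]; exact h2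
      linarith
    show max 0 (min 1 (min (r / A - 1) (2 - r / B))) = 1
    rw [min_eq_left (le_min h3 h4), max_eq_right zero_le_one]
  · intro r h
    have h' : max 0 (min 1 (min (r / A - 1) (2 - r / B))) ≠ 0 := h
    have h1 : 0 < min 1 (min (r / A - 1) (2 - r / B)) := by
      by_contra hc
      exact h' (max_eq_left (not_lt.1 hc))
    obtain ⟨_, h2⟩ := lt_min_iff.1 h1
    obtain ⟨h3, h4⟩ := lt_min_iff.1 h2
    constructor
    · have : 1 < r / A := by linarith
      rwa [one_lt_div hA] at this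
    · have : r / B < 2 := by linarith
      rwa [div_lt_iff₀ hB] at this

theorem ham (hHat : HatStmt) : HamStmt := by
  obtain ⟨h₀, h1, h2, h3⟩ := hHat
  choose h' a1 a2 a3 using fun m : ℕ => cutoff ((1 / 2 : ℝ) ^ (m + 2)) (2 * (1 / 2 : ℝ) ^ m)
    (by positivity) (by positivity)
  choose θ b1 b2 b3 using fun m : ℕ => cutoff ((1 / 2 : ℝ) ^ (m + 4)) (8 * (1 / 2 : ℝ) ^ m)
    (by positivity) (by positivity)
  refine ⟨fun m => (h₀ m) ^ 2, h', θ, fun m r => ?_, a1, b1, fun m r hne => ?_, fun m r hne => ?_,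
    fun m r hr hr' => ?_, fun m r hne => ?_, fun r hr hr' => ?_⟩
  · show 0 ≤ (h₀ m r) ^ 2
    positivity
  · have hne' : h₀ m r ≠ 0 := by
      intro h0
      apply hne
      show (h₀ m r) ^ 2 = 0
      rw [h0]; norm_num
    obtain ⟨h4, h5⟩ := h2 m r hne'
    refine a2 m r ?_ h5.le
    have : 2 * (1 / 2 : ℝ) ^ (m + 2) = (1 / 2 : ℝ) ^ (m + 1) := by
      rw [pow_succ (1 / 2 : ℝ) (m + 1)]; ring
    rw [this]; exact h4.le
  · obtain ⟨h4, h5⟩ := a3 m r hne
    exact ⟨h4, by linarith⟩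
  · refine b2 m r ?_ hr'
    have : 2 * (1 / 2 : ℝ) ^ (m + 4) = (1 / 2 : ℝ) ^ (m + 3) := by
      rw [pow_succ (1 / 2 : ℝ) (m + 3)]; ring
    rw [this]; exact hr
  · obtain ⟨h4, h5⟩ := b3 m r hne
    exact ⟨h4, by linarith⟩
  · obtain ⟨j, h4, h5⟩ := h3 r hr hr'
    refine ⟨j, fun m hm => h4 m ?_, h5⟩
    intro h0
    apply hm
    show (h₀ m r) ^ 2 = 0
    rw [h0]; norm_num

end Pool.Agent.SSF.H49
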